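import Pool.Agent.J4H60.TR.Small
import Pool.Agent.J4H60.TR.Dens4

/-!
# Tilings of the symmetric group by transpositions (MP_bfa556_co)

Q1 asks whether `T_n` (the identity and the transpositions) or `T_n^*` (the transpositions) tiles
`S_n` for some `n ≥ 4`.

Result. (1) If `T_n^*` tiles `S_n`, then `n (n - 1)` divides `∏ lam_a !` for all
`lam_0 + ... + lam_(k-1) = n` with positive content sum `∑ lam_a (lam_a - 1 - 2 a) / 2`. If `T_n`
tiles `S_n`, then `n (n - 1) / 2 + 1` divides `∏ lam_a !` whenever the content sum is not negative.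
(2) So `T_n^*` does not tile `S_n` if `n (n - 1)` has a prime factor `p > 1 + √(n + 1)`, and `T_n`
does not if `n (n - 1) / 2 + 1` has a prime factor `p ≥ 1 + √n`. (3) No tilings for
`4 ≤ n ≤ 159`, with at most nine exceptions. (4) The set of `n` for which `T_n^*` does not tile
`S_n` has lower density at least `log 2`, for `T_n` at least `3 / 4`, for both at least
`log 2 - 1 / 4`.

Proof. (Rothaus and Thompson treated `T_n` with characters of the symmetric group.) Let `x(w)` be
the number of the elements `y` of `Y` for which `w_0 ∘ y⁻¹` is the word `w`, where `w_0` is a fixed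
word with `lam_a` letters `a`. The sum of `x` over the words obtained from `w` by an exchange of two
positions is the same for all words `w` with these letters (for `T_n^*` we use the even elements of
`Y` only, which gives another factor 2). The operator `L` which sums over the exchanges satisfies
`⟨f, L f⟩ = c ⟨f, f⟩ + ∑_{a < b} |E_{ab} f|²`, `c` the content sum, where `E_{ab} f (w)` is the sum
of the `f(w')`, `w'` obtained from `w` by the change of one letter `a` into `b`. So `L` is injective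
if `c > 0`, and `x` is constant. (4) follows from (2) and Mertens' theorems for the
integers and for the quadratic character modulo 7.
-/

set_option autoImplicit false

namespace Pool.Agent.Results.MP_bfa556_co.LargePrimeFactors

open Equiv Equiv.Perm

/-- The set `T` of permutations tiles the symmetric group: for some `Y` every permutation has exactly
one factorisation `t y` with `t ∈ T`, `y ∈ Y`. -/
def Tiles {n : ℕ} (T : Set (Perm (Fin n))) : Prop :=
  ∃ Y : Set (Perm (Fin n)), ∀ σ : Perm (Fin n),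
    ∃! p : Perm (Fin n) × Perm (Fin n), p.1 ∈ T ∧ p.2 ∈ Y ∧ p.1 * p.2 = σ

/-- `T_n^*`, the set of all transpositions. -/
def TStar (n : ℕ) : Set (Perm (Fin n)) := {t | t.IsSwap}

/-- `T_n`, the identity and the transpositions. -/
def TOne (n : ℕ) : Set (Perm (Fin n)) := {t | t = 1 ∨ t.IsSwap}

/-- Twice the sum of the contents of the boxes of the diagram with row lengths `lam 0, lam 1, …`. -/
def content2 {k : ℕ} (lam : Fin k → ℕ) : ℤ :=
  ∑ a : Fin k, (lam a : ℤ) * (lam a - 1 - 2 * (a : ℤ))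

theorem result :
    (∀ (n k : ℕ) (lam : Fin k → ℕ), 2 ≤ n → ∑ a, lam a = n →
      (0 < content2 lam → Tiles (TStar n) → n * (n - 1) ∣ ∏ a, (lam a).factorial) ∧
      (0 ≤ content2 lam → Tiles (TOne n) → n * (n - 1) / 2 + 1 ∣ ∏ a, (lam a).factorial)) ∧
    (∀ n p : ℕ, 2 ≤ n → p.Prime → p ∣ n * (n - 1) → n + 2 ≤ (p - 1) ^ 2 →
      ¬ Tiles (TStar n)) ∧
    (∀ n p : ℕ, 2 ≤ n → p.Prime → p ∣ n * (n - 1) / 2 + 1 → n ≤ (p - 1) ^ 2 →
      ¬ Tiles (TOne n)) ∧
    (∀ n : ℕ, 4 ≤ n → n ≤ 159 → n ∉ [16, 36, 64, 81, 99, 100, 126, 144] →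
      ¬ Tiles (TStar n)) ∧
    (∀ n : ℕ, 4 ≤ n → n ≤ 159 → n ≠ 91 → ¬ Tiles (TOne n)) ∧
    (∀ ε : ℝ, 0 < ε → ∃ N₀ : ℕ, ∀ N ≥ N₀,
      (Real.log 2 - ε) * N ≤ ({n : ℕ | 1 ≤ n ∧ n ≤ N ∧ ¬ Tiles (TStar n)}.ncard : ℝ) ∧
      (3 / 4 - ε) * N ≤ ({n : ℕ | 1 ≤ n ∧ n ≤ N ∧ ¬ Tiles (TOne n)}.ncard : ℝ) ∧
      (Real.log 2 - 1 / 4 - ε) * N ≤
        ({n : ℕ | 1 ≤ n ∧ n ≤ N ∧ ¬ Tiles (TStar n) ∧ ¬ Tiles (TOne n)}.ncard : ℝ)) := by
  refine ⟨fun n k lam hn hsum => ⟨?_, ?_⟩, ?_, ?_, ?_, ?_, ?_⟩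
  · rintro hpos ⟨Y, hY⟩
    exact J4H60.TR.swaps_dvd hn Y hY lam hsum hpos
  · rintro hpos ⟨Y, hY⟩
    have h1 := J4H60.TR.idswaps_dvd hn Y hY lam hsum hpos
    have h2 : 2 * (n * (n - 1) / 2 + 1) = n * (n - 1) + 2 := by
      have h3 : 2 ∣ n * (n - 1) := (Nat.even_mul_pred_self n).two_dvd
      omega
    rw [← h2] at h1
    exact Nat.dvd_of_mul_dvd_mul_left two_pos h1
  · intro n p hn hp hpn h
    exact J4H60.TR.no_swaps n p hn hp hpn h
  · intro n p hn hp hpn h
    exact J4H60.TR.no_idswaps n p hn hp hpn h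
  · intro n h4 h hex
    exact J4H60.TR.small1 n h4 h hex
  · intro n h4 h hex
    exact J4H60.TR.small2 n h4 h hex
  · intro ε hε
    classical
    obtain ⟨N0, hN0⟩ := J4H60.TR.density ε hε
    refine ⟨N0, fun N hN => ?_⟩
    obtain ⟨h1, h2, h3⟩ := hN0 N hN
    have key : ∀ P : ℕ → Prop, {n : ℕ | 1 ≤ n ∧ n ≤ N ∧ P n}.ncard =
        ((Finset.Ioc 0 N).filter P).card := by
      intro P
      rw [← Set.ncard_coe_finset]
      congr 1
      ext n
      simp only [Set.mem_ofPred_eq, Finset.coe_filter, Finset.mem_Ioc, Nat.succ_le_iff, and_assoc]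
    have eA : ∀ n : ℕ, Tiles (TStar n) = J4H60.TR.TilesA n := fun n => rfl
    have eB : ∀ n : ℕ, Tiles (TOne n) = J4H60.TR.TilesB n := fun n => rfl
    refine ⟨?_, ?_, ?_⟩
    · rw [key]
      simp only [eA]
      convert h1
    · rw [key]
      simp only [eB]
      convert h2
    · rw [key]
      simp only [eA, eB]
      convert h3

end Pool.Agent.Results.MP_bfa556_co.LargePrimeFactors
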